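import Pool.Agent.helper63.TI.SpecA

/-!
# Project ti, row SUY: generic elements of the special unitary Lie algebras
-/

set_option autoImplicit false

namespace Pool.Agent.TI

open Polynomial NumberField Pool.Agent.GJ Pool.Agent.TK Pool.Agent.TQ Pool.Agent.TFQ Pool.Agent.TD Pool.Agent.AQ
open Pool.Agent.FJ (VT Om chiO IsFrobO rf rs)
open scoped TensorProduct

noncomputable section

/-- finitely many nonzero linear maps have a common nonzero -/
theorem SUY_gen {K W X : Type} [Field K] [Infinite K] [AddCommGroup W] [Module K W] [AddCommGroup X] [Module K X]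
    (S : Set (W →ₗ[K] X)) (hS : S.Finite) (h : ∀ f ∈ S, f ≠ 0) : ∃ w, ∀ f ∈ S, f w ≠ 0 := by
  classical
  let s : Finset (Subspace K W) := hS.toFinset.image fun f => LinearMap.ker f
  have hs : ⊤ ∉ s := by
    intro h1
    obtain ⟨f, hf, h2⟩ := Finset.mem_image.mp h1
    exact h f (hS.mem_toFinset.mp hf) (LinearMap.ker_eq_top.mp h2)
  have h1 := Subspace.biUnion_ne_univ_of_top_notMem hs
  have h2 : ∃ w, w ∉ ⋃ p ∈ s, (p : Set W) := by
    by_contra h3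
    push Not at h3
    exact h1 (Set.eq_univ_of_forall h3)
  obtain ⟨w, hw⟩ := h2
  refine ⟨w, fun f hf h3 => hw ?_⟩
  refine Set.mem_iUnion₂.mpr ⟨LinearMap.ker f, Finset.mem_image.mpr ⟨f, hS.mem_toFinset.mpr hf, rfl⟩, ?_⟩
  exact LinearMap.mem_ker.mpr h3

/-- a coordinate of the image of a vector, as a linear map in the operator -/
def SUY_ev {q : ℕ} [Fact q.Prime] {V : Type} [AddCommGroup V] [Module ℚ_[q] V]
    (g : PadicAlgCl q ⊗[ℚ_[q]] V →ₗ[PadicAlgCl q] PadicAlgCl q) (w : PadicAlgCl q ⊗[ℚ_[q]] V) :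
    Module.End ℚ_[q] V →ₗ[ℚ_[q]] PadicAlgCl q where
  toFun A := g (bs A w)
  map_add' A A' := by
    rw [show bs (A + A') = bs A + bs A' from LinearMap.baseChange_add A A', LinearMap.add_apply, map_add]
  map_smul' c A := by
    rw [show bs (c • A) = c • bs A from LinearMap.baseChange_smul c A, LinearMap.smul_apply,
      LinearMap.map_smul_of_tower]
    rfl

theorem SUY_fin (k : ℕ) (n : Fin k → ℕ) (R : ℕ) (B : ℕ) :
    {κ : ∀ i : Fin k, Fin R → Fin (n i) → ℤ | ∀ i r t, |κ i r t| ≤ B}.Finite := by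
  have h : {κ : ∀ i : Fin k, Fin R → Fin (n i) → ℤ | ∀ i, κ i ∈ {κ' : Fin R → Fin (n i) → ℤ | ∀ r, κ' r ∈
      {κ'' : Fin (n i) → ℤ | ∀ t, κ'' t ∈ Set.Icc (-(B : ℤ)) B}}}.Finite :=
    Set.Finite.pi' fun i => Set.Finite.pi' fun r => Set.Finite.pi' fun t => Set.finite_Icc _ _
  refine h.subset ?_
  intro κ hκ i r t
  exact abs_le.mp (hκ i r t)

theorem SUY_core {q : ℕ} [Fact q.Prime] (k : ℕ) (n : Fin k → ℕ) (V : Fin k → Type) [∀ i, AddCommGroup (V i)]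
    [∀ i, Module ℚ_[q] (V i)] (R : ℕ) (U : ∀ i, Fin R → Submodule (PadicAlgCl q) (PadicAlgCl q ⊗[ℚ_[q]] V i))
    (u : ∀ i, ∀ r : Fin R, Module.Basis (Fin (n i)) (PadicAlgCl q) (U i r))
    (W : Submodule ℚ_[q] (∀ i, Module.End ℚ_[q] (V i)))
    (hU : ∀ Y ∈ W, ∀ i r, ∀ x ∈ U i r, bs (Y i) x ∈ U i r)
    (hW : ∀ (i0 : Fin k) (r0 : Fin R) (t0 t1 : Fin (n i0)), t0 ≠ t1 → ∃ (m : ℕ) (c : Fin m → PadicAlgCl q)
      (A : Fin m → ∀ i, Module.End ℚ_[q] (V i)), (∀ j, A j ∈ W) ∧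
      (∀ i, i ≠ i0 → ∀ r t, ∑ j, c j • bs (A j i) (u i r t : PadicAlgCl q ⊗[ℚ_[q]] V i) = 0) ∧
      (∀ r, r ≠ r0 → ∀ t, ∑ j, c j • bs (A j i0) (u i0 r t : PadicAlgCl q ⊗[ℚ_[q]] V i0) = 0) ∧
      ∀ t, ∑ j, c j • bs (A j i0) (u i0 r0 t : PadicAlgCl q ⊗[ℚ_[q]] V i0) =
        ((if t = t0 then 1 else 0) - (if t = t1 then 1 else 0) : PadicAlgCl q) • (u i0 r0 t : PadicAlgCl q ⊗[ℚ_[q]] V i0))
    (B : ℕ) : ∃ Y ∈ W, ∃ y : ∀ i, Fin R → Fin (n i) → Fin (n i) → PadicAlgCl q,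
      (∀ i r t, bs (Y i) (u i r t : PadicAlgCl q ⊗[ℚ_[q]] V i) = ∑ t', y i r t' t • (u i r t' : PadicAlgCl q ⊗[ℚ_[q]] V i)) ∧
      ∀ κ : ∀ i, Fin R → Fin (n i) → ℤ, (∀ i r t, |κ i r t| ≤ B) → (¬ ∀ i r t t', κ i r t = κ i r t') →
        ∑ i, ∑ r, ∑ t, (κ i r t : PadicAlgCl q) * y i r t t ≠ 0 := by
  classical
  have hg0 : ∀ i (r : Fin R) (t' : Fin (n i)), ∃ g : PadicAlgCl q ⊗[ℚ_[q]] V i →ₗ[PadicAlgCl q] PadicAlgCl q,
      g ∘ₗ (U i r).subtype = (u i r).coord t' := fun i r t' => LinearMap.exists_extend _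
  choose g hg using hg0
  have hg1 : ∀ i r t' (x : U i r), g i r t' (x : PadicAlgCl q ⊗[ℚ_[q]] V i) = (u i r).repr x t' := by
    intro i r t' x
    have h := LinearMap.congr_fun (hg i r t') x
    exact h
  have hy : ∀ Y ∈ W, ∀ i r t, bs (Y i) (u i r t : PadicAlgCl q ⊗[ℚ_[q]] V i) =
      ∑ t', SUY_ev (g i r t') (u i r t : PadicAlgCl q ⊗[ℚ_[q]] V i) (Y i) • (u i r t' : PadicAlgCl q ⊗[ℚ_[q]] V i) := by
    intro Y hY i r t
    have h := (u i r).sum_repr ⟨bs (Y i) (u i r t : PadicAlgCl q ⊗[ℚ_[q]] V i), hU Y hY i r _ (u i r t).2⟩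
    have h1 := congrArg (fun x : U i r => (x : PadicAlgCl q ⊗[ℚ_[q]] V i)) h
    rw [← show _ = bs (Y i) (u i r t : PadicAlgCl q ⊗[ℚ_[q]] V i) from h1]
    rw [AddSubmonoidClass.coe_finset_sum]
    refine Finset.sum_congr rfl fun t' _ => ?_
    rw [← hg1]
    rfl
  let F : (∀ i, Fin R → Fin (n i) → ℤ) → ((∀ i, Module.End ℚ_[q] (V i)) →ₗ[ℚ_[q]] PadicAlgCl q) := fun κ =>
    ∑ i, ∑ r, ∑ t, κ i r t • (SUY_ev (g i r t) (u i r t : PadicAlgCl q ⊗[ℚ_[q]] V i)) ∘ₗ LinearMap.proj i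
  have hF : ∀ κ Y, F κ Y = ∑ i, ∑ r, ∑ t, (κ i r t : PadicAlgCl q) *
      SUY_ev (g i r t) (u i r t : PadicAlgCl q ⊗[ℚ_[q]] V i) (Y i) := by
    intro κ Y
    simp only [F, LinearMap.sum_apply]
    refine Finset.sum_congr rfl fun i _ => Finset.sum_congr rfl fun r _ => Finset.sum_congr rfl fun t _ => ?_
    rw [LinearMap.smul_apply, zsmul_eq_mul]
    rfl
  let S : Set (W →ₗ[ℚ_[q]] PadicAlgCl q) := (fun κ => F κ ∘ₗ W.subtype) ''
    {κ : ∀ i, Fin R → Fin (n i) → ℤ | (∀ i r t, |κ i r t| ≤ B) ∧ ¬ ∀ i r t t', κ i r t = κ i r t'}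
  have hSf : S.Finite := by
    refine Set.Finite.image _ ?_
    exact (SUY_fin k n R B).subset fun κ hκ => hκ.1
  have hS0 : ∀ f ∈ S, f ≠ 0 := by
    rintro f ⟨κ, ⟨hκ, hκ'⟩, rfl⟩ h0
    push Not at hκ'
    obtain ⟨i0, r0, t0, t1, ht⟩ := hκ'
    have hne : t0 ≠ t1 := by
      intro h
      exact ht (by rw [h])
    obtain ⟨m, c, A, hA, h1, h2, h3⟩ := hW i0 r0 t0 t1 hne
    have h4 : ∀ j, F κ (A j) = 0 := by
      intro j
      exact LinearMap.congr_fun h0 ⟨A j, hA j⟩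
    have h5 : ∑ j, c j * F κ (A j) = 0 := Finset.sum_eq_zero fun j _ => by rw [h4 j, mul_zero]
    have h6 : ∑ j, c j * F κ (A j) = ∑ i, ∑ r, ∑ t, (κ i r t : PadicAlgCl q) *
        g i r t (∑ j, c j • bs (A j i) (u i r t : PadicAlgCl q ⊗[ℚ_[q]] V i)) := by
      simp only [hF, Finset.mul_sum, map_sum, map_smul, smul_eq_mul]
      rw [Finset.sum_comm]
      refine Finset.sum_congr rfl fun i _ => ?_
      rw [Finset.sum_comm]
      refine Finset.sum_congr rfl fun r _ => ?_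
      rw [Finset.sum_comm]
      refine Finset.sum_congr rfl fun t _ => Finset.sum_congr rfl fun j _ => ?_
      change c j * ((κ i r t : PadicAlgCl q) * g i r t (bs (A j i) (u i r t : PadicAlgCl q ⊗[ℚ_[q]] V i))) = _
      ring
    rw [h6, Finset.sum_eq_single i0 (fun i _ hi => Finset.sum_eq_zero fun r _ => Finset.sum_eq_zero fun t _ => by
      rw [h1 i hi r t, map_zero, mul_zero]) (fun h => absurd (Finset.mem_univ i0) h),
      Finset.sum_eq_single r0 (fun r _ hr => Finset.sum_eq_zero fun t _ => by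
      rw [h2 r hr t, map_zero, mul_zero]) (fun h => absurd (Finset.mem_univ r0) h)] at h5
    have h7 : ∀ t, g i0 r0 t (∑ j, c j • bs (A j i0) (u i0 r0 t : PadicAlgCl q ⊗[ℚ_[q]] V i0)) =
        (if t = t0 then 1 else 0) - (if t = t1 then 1 else 0) := by
      intro t
      rw [h3 t, map_smul, hg1 i0 r0 t (u i0 r0 t), Module.Basis.repr_self, Finsupp.single_eq_same, smul_eq_mul, mul_one]
    simp only [h7, mul_sub, mul_ite, mul_one, mul_zero, Finset.sum_sub_distrib, Finset.sum_ite_eq', Finset.mem_univ,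
      if_true] at h5
    have h8 : ((κ i0 r0 t0 : ℤ) : PadicAlgCl q) = ((κ i0 r0 t1 : ℤ) : PadicAlgCl q) := sub_eq_zero.mp h5
    exact ht (Int.cast_injective h8)
  obtain ⟨Y, hY⟩ := SUY_gen S hSf hS0
  refine ⟨Y.1, Y.2, fun i r t' t => SUY_ev (g i r t') (u i r t : PadicAlgCl q ⊗[ℚ_[q]] V i) (Y.1 i), hy Y.1 Y.2, ?_⟩
  intro κ hκ hκ'
  rw [← hF]
  exact hY _ ⟨κ, ⟨hκ, hκ'⟩, rfl⟩

/-- a multiple by a power of the prime preserves the lattice -/
theorem SUY_lat {q : ℕ} [Fact q.Prime] {V : Type} [AddCommGroup V] [Module ℚ_[q] V] (T : AddSubgroup V) (hT : TQ.Lat q T)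
    (Y : V →ₗ[ℚ_[q]] V) : ∃ c : ℕ, ∀ c' ≥ c, ∀ t ∈ T, (q : ℚ_[q]) ^ c' • Y t ∈ T := by
  obtain ⟨N, b, hb⟩ := hT
  have hq : (1 : ℝ) < q := by exact_mod_cast (Fact.out : q.Prime).one_lt
  obtain ⟨c, hc⟩ := pow_unbounded_of_one_lt (∑ j, ∑ j', ‖b.repr (Y (b j')) j‖) hq
  refine ⟨c, fun c' hc' t ht => ?_⟩
  have h1 : ∀ j j', ‖(q : ℚ_[q]) ^ c' * b.repr (Y (b j')) j‖ ≤ 1 := by
    intro j j'
    have h2 : ‖b.repr (Y (b j')) j‖ ≤ ∑ j, ∑ j', ‖b.repr (Y (b j')) j‖ := by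
      refine le_trans ?_ (Finset.single_le_sum (f := fun j => ∑ j', ‖b.repr (Y (b j')) j‖)
        (fun j _ => Finset.sum_nonneg fun j' _ => norm_nonneg _) (Finset.mem_univ j))
      exact Finset.single_le_sum (f := fun j' => ‖b.repr (Y (b j')) j‖) (fun j' _ => norm_nonneg _) (Finset.mem_univ j')
    have h3 : ‖b.repr (Y (b j')) j‖ ≤ (q : ℝ) ^ c' :=
      le_trans h2 (le_trans hc.le (pow_le_pow_right₀ hq.le hc'))
    rw [norm_mul, Padic.norm_p_pow, zpow_neg, zpow_natCast]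
    rw [inv_mul_le_iff₀ (by positivity), mul_one]
    exact h3
  have h4 : ∀ j j', (q : ℚ_[q]) ^ c' * b.repr (Y (b j')) j ∈ PadicInt.subring q := fun j j' => h1 j j'
  have h5 : ∀ j, b.repr t j ∈ PadicInt.subring q := fun j => (hb t).mp ht j
  rw [hb]
  intro j
  have h6 : b.repr ((q : ℚ_[q]) ^ c' • Y t) j = ∑ j', b.repr t j' * ((q : ℚ_[q]) ^ c' * b.repr (Y (b j')) j) := by
    conv_lhs => rw [← b.sum_repr t]
    rw [map_sum, Finset.smul_sum, map_sum, Finsupp.finset_sum_apply]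
    refine Finset.sum_congr rfl fun j' _ => ?_
    rw [map_smul, map_smul, map_smul, Finsupp.smul_apply, Finsupp.smul_apply, smul_eq_mul, smul_eq_mul]
    ring
  rw [h6]
  have h7 : ∑ j', b.repr t j' * ((q : ℚ_[q]) ^ c' * b.repr (Y (b j')) j) ∈ PadicInt.subring q :=
    sum_mem fun j' _ => mul_mem (h5 j') (h4 j j')
  exact h7

theorem SUY_eg {q : ℕ} [Fact q.Prime] {V : Type} [AddCommGroup V] [Module ℚ_[q] V] (Z Y : Module.End ℚ_[q] V)
    (h : Y * Z = Z * Y) (ζ : PadicAlgCl q) (r : ℕ) (x : PadicAlgCl q ⊗[ℚ_[q]] V) (hx : x ∈ eg (bs Z) ζ r) :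
    bs Y x ∈ eg (bs Z) ζ r := by
  have h1 : bs Z x = ζ ^ r • x := by
    have h2 := LinearMap.mem_ker.mp hx
    rw [LinearMap.sub_apply, LinearMap.smul_apply, LinearMap.id_apply] at h2
    exact sub_eq_zero.mp h2
  have h3 : bs Y ∘ₗ bs Z = bs Z ∘ₗ bs Y := by
    rw [← LinearMap.baseChange_comp, ← LinearMap.baseChange_comp]
    exact congrArg (LinearMap.baseChange (PadicAlgCl q)) h
  refine LinearMap.mem_ker.mpr ?_
  rw [LinearMap.sub_apply, LinearMap.smul_apply, LinearMap.id_apply, sub_eq_zero]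
  rw [← map_smul, ← h1]
  exact (LinearMap.congr_fun h3 x).symm

/-- a diagonal operator with entries `1`, `-1` and its trace -/
theorem SUY_dg {Ω U : Type} [Field Ω] [AddCommGroup U] [Module Ω U] {n : ℕ} (u : Module.Basis (Fin n) Ω U) (t0 t1 : Fin n) :
    ∃ N : U →ₗ[Ω] U, LinearMap.trace Ω U N = 0 ∧
      ∀ t, N (u t) = ((if t = t0 then 1 else 0) - (if t = t1 then 1 else 0) : Ω) • u t := by
  classical
  let N : U →ₗ[Ω] U := u.constr Ω fun t => ((if t = t0 then 1 else 0) - (if t = t1 then 1 else 0) : Ω) • u t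
  have hN : ∀ t, N (u t) = ((if t = t0 then 1 else 0) - (if t = t1 then 1 else 0) : Ω) • u t := fun t =>
    u.constr_basis Ω _ t
  refine ⟨N, ?_, hN⟩
  rw [LinearMap.trace_eq_matrix_trace Ω u N]
  unfold Matrix.trace
  have h1 : ∀ t, (LinearMap.toMatrix u u N).diag t = (if t = t0 then 1 else 0) - (if t = t1 then 1 else 0) := by
    intro t
    rw [Matrix.diag_apply, LinearMap.toMatrix_apply, hN t, map_smul, Module.Basis.repr_self, Finsupp.smul_single,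
      Finsupp.single_eq_same, smul_eq_mul, mul_one]
  simp only [h1, Finset.sum_sub_distrib, Finset.sum_ite_eq', Finset.mem_univ, if_true, sub_self]

theorem SUY (hSPN : SPN_stmt) (hL9 : GJ.L9_stmt) (hNB1 : TQ.NB1_stmt) (hDD : GJ.DD_stmt) : SUY_stmt := by
  intro l _ hl D hn θ hθ s hs ζ hζ u B
  classical
  have hlp : l.Prime := Fact.out
  have hl2 : 2 ≤ l := hlp.two_le
  haveI hnz : NeZero (l : Om) := ⟨Nat.cast_ne_zero.mpr hlp.ne_zero⟩
  haveI hnz' : NeZero l := ⟨hlp.ne_zero⟩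
  haveI hded : ∀ i, IsDedekindDomain (CR Om l (D.μ i) (D.a i)) := fun i => hDD Om l (D.n i) (D.μ i) (D.a i)
  obtain ⟨-, -, -, hmul, hone, -, hsum, -, -, -, -, hlat, -⟩ := hNB1 l l D
  have hfd : ∀ i, FiniteDimensional ℚ_[l] (VA D l i) := by
    intro i
    obtain ⟨v, b, hb⟩ := hθ.free i s hs
    exact Module.Finite.of_basis b
  have hE := fun i => hL9 ℚ_[l] (VA D l i) (θ i) (hθ.th i).deg (hθ.th i).nondeg
  choose E hE1 hE2 hE3 hE4 using hE
  have hiff : ∀ i (A : Module.End ℚ_[l] (VA D l i)), TQ.IsSuA (θ i) A ↔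
      (∀ s', A ∘ₗ zA D l i s' = zA D l i s' ∘ₗ A) ∧ (∀ x y, E i (A x) y + E i x (A y) = 0) ∧
        ∀ s', LinearMap.trace ℚ_[l] (VA D l i) (zA D l i s' ∘ₗ A) = 0 := by
    intro i A
    constructor
    · intro h
      exact ⟨h.comm, (hE4 i A).mp h.kill, h.tr⟩
    · rintro ⟨h1, h2, h3⟩
      exact ⟨h1, (hE4 i A).mpr h2, h3⟩
  have hz : ∀ i, TQ.IsSuA (θ i) (0 : Module.End ℚ_[l] (VA D l i)) := by
    intro i
    rw [hiff]
    refine ⟨fun s' => ?_, fun x y => ?_, fun s' => ?_⟩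
    · rw [LinearMap.zero_comp, LinearMap.comp_zero]
    · rw [LinearMap.zero_apply, LinearMap.zero_apply, map_zero, map_zero, LinearMap.zero_apply, add_zero]
    · rw [LinearMap.comp_zero, map_zero]
  have hsm : ∀ i (c : ℚ_[l]) (A : Module.End ℚ_[l] (VA D l i)), TQ.IsSuA (θ i) A → TQ.IsSuA (θ i) (c • A) := by
    intro i c A h
    rw [hiff] at h ⊢
    obtain ⟨h1, h2, h3⟩ := h
    refine ⟨fun s' => ?_, fun x y => ?_, fun s' => ?_⟩
    · rw [LinearMap.smul_comp, LinearMap.comp_smul, h1]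
    · rw [LinearMap.smul_apply, LinearMap.smul_apply, map_smul, map_smul, LinearMap.smul_apply, ← smul_add, h2, smul_zero]
    · rw [LinearMap.comp_smul, map_smul, h3, smul_zero]
  have had : ∀ i (A A' : Module.End ℚ_[l] (VA D l i)), TQ.IsSuA (θ i) A → TQ.IsSuA (θ i) A' → TQ.IsSuA (θ i) (A + A') := by
    intro i A A' h h'
    rw [hiff] at h h' ⊢
    obtain ⟨h1, h2, h3⟩ := h
    obtain ⟨h1', h2', h3'⟩ := h'
    refine ⟨fun s' => ?_, fun x y => ?_, fun s' => ?_⟩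
    · rw [LinearMap.add_comp, LinearMap.comp_add, h1, h1']
    · rw [LinearMap.add_apply, LinearMap.add_apply, map_add, map_add, LinearMap.add_apply, add_add_add_comm, h2, h2', add_zero]
    · rw [LinearMap.comp_add, map_add, h3, h3', add_zero]
  let W : Submodule ℚ_[l] (∀ i, Module.End ℚ_[l] (VA D l i)) :=
    { carrier := {Y | ∀ i, TQ.IsSuA (θ i) (Y i)}
      add_mem' := fun {Y Y'} h h' i => had i (Y i) (Y' i) (h i) (h' i)
      zero_mem' := fun i => hz i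
      smul_mem' := fun c Y h i => hsm i c (Y i) (h i) }
  have hpow : ∀ i (m : ℕ), zA D l i (s ^ m) = (zA D l i s : Module.End ℚ_[l] (VA D l i)) ^ m := by
    intro i m
    induction m with
    | zero => rw [pow_zero, pow_zero, hone]; rfl
    | succ m ih => rw [pow_succ, pow_succ, hmul, ih]; rfl
  have hsp : ∀ s' : rootsOfUnity l Om, ∃ m : ℕ, s' = s ^ m := by
    intro s'
    have h1 : (((s' : Omˣ) : Om)) ^ l = 1 := by
      have h2 := s'.2
      rw [mem_rootsOfUnity] at h2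
      rw [← Units.val_pow_eq_pow_val, h2, Units.val_one]
    obtain ⟨m, -, hm⟩ := IsPrimitiveRoot.eq_pow_of_pow_eq_one hs h1
    refine ⟨m, ?_⟩
    apply Subtype.ext
    apply Units.ext
    rw [← hm]
    rfl
  have hU : ∀ Y ∈ W, ∀ i (r : Fin ((l - 1) / 2)), ∀ x ∈ ES D l i s ζ ((r : ℕ) + 1), bs (Y i) x ∈ ES D l i s ζ ((r : ℕ) + 1) := by
    intro Y hY i r x hx
    exact SUY_eg (zA D l i s) (Y i) ((hY i).comm s) ζ _ x hx
  have hW : ∀ (i0 : Fin D.k) (r0 : Fin ((l - 1) / 2)) (t0 t1 : Fin (D.n i0)), t0 ≠ t1 → ∃ (m : ℕ) (c : Fin m → PadicAlgCl l)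
      (A : Fin m → ∀ i, Module.End ℚ_[l] (VA D l i)), (∀ j, A j ∈ W) ∧
      (∀ i, i ≠ i0 → ∀ r t, ∑ j, c j • bs (A j i) (u i r t : WA D l i) = 0) ∧
      (∀ r, r ≠ r0 → ∀ t, ∑ j, c j • bs (A j i0) (u i0 r t : WA D l i0) = 0) ∧
      ∀ t, ∑ j, c j • bs (A j i0) (u i0 r0 t : WA D l i0) =
        ((if t = t0 then 1 else 0) - (if t = t1 then 1 else 0) : PadicAlgCl l) • (u i0 r0 t : WA D l i0) := by
    intro i0 r0 t0 t1 _
    obtain ⟨v, b, hb⟩ := hθ.free i0 s hs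
    obtain ⟨N, hN0, hN⟩ := SUY_dg (u i0 r0) t0 t1
    have hinv : ∀ x y, E i0 (zA D l i0 s x) (zA D l i0 s y) = E i0 x y := by
      intro x y
      have h1 : ExteriorAlgebra.map (zA D l i0 s) (θ i0) = (1 : ℚ_[l]) • θ i0 := by
        rw [(hθ.th i0).zeta s, one_smul]
      rw [hE3 i0 (zA D l i0 s) 1 one_ne_zero h1 x y, one_mul]
    have hr0 := r0.2
    have hr0' : (r0 : ℕ) + 1 < l := by omega
    obtain ⟨m, c, A, hA, hA1, hA2⟩ := hSPN ℚ_[l] (PadicAlgCl l) (VA D l i0) l (D.n i0) hlp hl (zA D l i0 s) v b hb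
      (hsum i0 s hs) ζ hζ (E i0) (hE2 i0) (hE1 i0) hinv ((r0 : ℕ) + 1) (Nat.succ_pos _) hr0' N hN0
    obtain ⟨A', hA's, hA'n⟩ : ∃ A' : Fin m → ∀ i, Module.End ℚ_[l] (VA D l i), (∀ j, A' j i0 = A j) ∧
        ∀ j i, i ≠ i0 → A' j i = 0 :=
      ⟨fun j => Pi.single i0 (A j), fun j => Pi.single_eq_same (M := fun i => Module.End ℚ_[l] (VA D l i)) i0 (A j), fun j i hi => Pi.single_eq_of_ne (M := fun i => Module.End ℚ_[l] (VA D l i)) hi (A j)⟩
    refine ⟨m, c, A', ?_, ?_, ?_, ?_⟩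
    · intro j i
      by_cases hi : i = i0
      · subst hi
        rw [hA's, hiff]
        obtain ⟨h1, h2, h3⟩ := hA j
        have h1' : Commute (A j : Module.End ℚ_[l] (VA D l i)) (zA D l i s) := h1
        refine ⟨fun s' => ?_, h2, fun s' => ?_⟩
        · obtain ⟨m', rfl⟩ := hsp s'
          rw [hpow]
          exact h1'.pow_right m'
        · obtain ⟨m', rfl⟩ := hsp s'
          rw [hpow]
          exact h3 m'
      · rw [hA'n j i hi]
        exact hz i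
    · intro i hi r t
      refine Finset.sum_eq_zero fun j _ => ?_
      rw [hA'n j i hi, show bs (0 : Module.End ℚ_[l] (VA D l i)) = 0 from LinearMap.baseChange_zero,
        LinearMap.zero_apply, smul_zero]
    · intro r hr t
      have h1 := hA2 ((r : ℕ) + 1) (Nat.succ_pos _) (by have := r.2; omega) (by
        intro h
        exact hr (Fin.ext (by omega))) (by have := r.2; omega) (u i0 r t : WA D l i0) (u i0 r t).2
      rw [← h1]
      refine Finset.sum_congr rfl fun j _ => ?_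
      rw [hA's]
    · intro t
      have h1 := hA1 (u i0 r0 t)
      rw [hN t] at h1
      have h2 : ((((if t = t0 then 1 else 0) - (if t = t1 then 1 else 0) : PadicAlgCl l) • u i0 r0 t :
        ES D l i0 s ζ ((r0 : ℕ) + 1)) : WA D l i0) =
        ((if t = t0 then 1 else 0) - (if t = t1 then 1 else 0) : PadicAlgCl l) • (u i0 r0 t : WA D l i0) := rfl
      rw [← h2, ← h1]
      refine Finset.sum_congr rfl fun j _ => ?_
      rw [hA's]
  obtain ⟨Y, hYW, y, hy, hk⟩ := SUY_core D.k D.n (fun i => VA D l i) ((l - 1) / 2)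
    (fun i r => ES D l i s ζ ((r : ℕ) + 1)) u W hU hW B
  have hc : ∀ i, ∃ c : ℕ, ∀ c' ≥ c, ∀ t ∈ TZ D l i, (l : ℚ_[l]) ^ c' • Y i t ∈ TZ D l i := by
    intro i
    obtain ⟨T, hT, hT'⟩ := hlat i (hfd i)
    obtain ⟨c, hc⟩ := SUY_lat T hT (Y i)
    refine ⟨c, fun c' hc' t ht => ?_⟩
    exact (hT' _).mp (hc c' hc' t ((hT' t).mpr ht))
  choose c hc using hc
  have hl0 : ((l : ℚ_[l]) ^ (∑ i, c i)) ≠ 0 := pow_ne_zero _ (Nat.cast_ne_zero.mpr hlp.ne_zero)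
  refine ⟨fun i => (l : ℚ_[l]) ^ (∑ i, c i) • Y i, fun i r t' t => (l : ℚ_[l]) ^ (∑ i, c i) • y i r t' t, ?_, ?_, ?_, ?_⟩
  · intro i
    exact hsm i _ (Y i) (hYW i)
  · intro i t ht
    exact hc i (∑ i, c i) (Finset.single_le_sum (f := c) (fun _ _ => Nat.zero_le _) (Finset.mem_univ i)) t ht
  · intro i r t
    rw [show bs ((l : ℚ_[l]) ^ (∑ i, c i) • Y i) = (l : ℚ_[l]) ^ (∑ i, c i) • bs (Y i) from LinearMap.baseChange_smul _ _,
      LinearMap.smul_apply, hy i r t, Finset.smul_sum]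
    refine Finset.sum_congr rfl fun t' _ => ?_
    rw [smul_assoc]
  · intro κ hκ hκ'
    have h1 := hk κ hκ hκ'
    have h2 : ∑ i, ∑ r, ∑ t, (κ i r t : PadicAlgCl l) * ((l : ℚ_[l]) ^ (∑ i, c i) • y i r t t) =
        (l : ℚ_[l]) ^ (∑ i, c i) • ∑ i, ∑ r, ∑ t, (κ i r t : PadicAlgCl l) * y i r t t := by
      simp only [Finset.smul_sum, mul_smul_comm]
    rw [h2]
    exact smul_ne_zero hl0 h1

end

end Pool.Agent.TI
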